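import Mathlib

/-!
Homomorphisms which preserve a transcendence basis are injective on the generated algebra.
-/

namespace Pool.Agent.Helper5.D4

open Algebra

/-- a maximal algebraically independent subfamily of a finite family -/
theorem exists_basis {k R ι : Type*} [Field k] [CommRing R] [IsDomain R] [Algebra k R] [Fintype ι]
    (T : ι → R) : ∃ s : Finset ι, AlgebraicIndepOn k T (s : Set ι) ∧
      ∀ i, IsAlgebraic (adjoin k (T '' (s : Set ι))) (T i) := by
  classical
  have hne : (Finset.univ.filter fun s : Finset ι => AlgebraicIndepOn k T (s : Set ι)).Nonempty := by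
    refine ⟨∅, ?_⟩
    rw [Finset.mem_filter]
    refine ⟨Finset.mem_univ _, ?_⟩
    simp only [Finset.coe_empty]
    show AlgebraicIndependent k _
    rw [algebraicIndependent_empty_type_iff]
    exact FaithfulSMul.algebraMap_injective k R
  obtain ⟨s, hs, hmax⟩ := Finset.exists_max_image _ Finset.card hne
  rw [Finset.mem_filter] at hs
  refine ⟨s, hs.2, fun i => ?_⟩
  by_cases hi : i ∈ s
  · have hmem : T i ∈ adjoin k (T '' (s : Set ι)) := subset_adjoin ⟨i, hi, rfl⟩
    exact isAlgebraic_algebraMap (⟨T i, hmem⟩ : adjoin k (T '' (s : Set ι)))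
  · by_contra htr
    have h1 : AlgebraicIndepOn k T (insert i (s : Set ι)) := hs.2.insert htr
    have h2 := hmax (insert i s) (by
      rw [Finset.mem_filter]
      refine ⟨Finset.mem_univ _, ?_⟩
      rw [Finset.coe_insert]
      exact h1)
    rw [Finset.card_insert_of_notMem hi] at h2
    omega

/-- A homomorphism which keeps a transcendence basis of `T` algebraically independent is injective
on the algebra generated by `T`. -/
theorem faithful {k R L ι : Type*} [Field k] [CommRing R] [IsDomain R] [Algebra k R]
    [CommRing L] [Algebra k L] (φ : R →ₐ[k] L) (T : ι → R) (s : Set ι)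
    (hind : AlgebraicIndepOn k (fun i => φ (T i)) s)
    (halg : ∀ i, IsAlgebraic (adjoin k (T '' s)) (T i))
    (f : R) (hf : f ∈ adjoin k (Set.range T)) (hf0 : f ≠ 0) : φ f ≠ 0 := by
  intro h0
  -- `f` is algebraic over the small algebra
  have hfalg : IsAlgebraic (adjoin k (T '' s)) f := by
    have h2 : f ∈ (Subalgebra.algebraicClosure (adjoin k (T '' s)) R).restrictScalars k := by
      refine (adjoin_le ?_ : adjoin k (Set.range T) ≤ _) hf
      rintro _ ⟨i, rfl⟩
      exact halg i
    exact h2
  obtain ⟨q, hq0, hq⟩ := hfalg.exists_nonzero_coeff_and_aeval_eq_zero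
    (mem_nonZeroDivisors_of_ne_zero hf0)
  -- the constant coefficient is a multiple of `f`
  have h1 : ((q.coeff 0 : adjoin k (T '' s)) : R) = - (f * Polynomial.aeval f q.divX) := by
    have h2 : Polynomial.aeval f (Polynomial.X * q.divX + Polynomial.C (q.coeff 0)) = 0 := by
      rw [Polynomial.X_mul_divX_add]; exact hq
    rw [map_add, map_mul, Polynomial.aeval_X, Polynomial.aeval_C] at h2
    have h3 : (algebraMap (adjoin k (T '' s)) R) (q.coeff 0) = ((q.coeff 0 : adjoin k (T '' s)) : R) :=
      rfl
    rw [h3] at h2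
    exact eq_neg_of_add_eq_zero_right h2
  -- as a polynomial in the `T i`
  have h4 : ((q.coeff 0 : adjoin k (T '' s)) : R) ∈ adjoin k (Set.range fun i : s => T i) := by
    have h5 : T '' s = Set.range fun i : s => T i := Set.image_eq_range T s
    have h6 := (q.coeff 0 : adjoin k (T '' s)).2
    exact h5 ▸ h6
  rw [adjoin_range_eq_range_aeval] at h4
  obtain ⟨P, hP⟩ := h4
  have h7 : MvPolynomial.aeval (fun i : s => φ (T i)) P = 0 := by
    have h8 : MvPolynomial.aeval (fun i : s => φ (T i)) P =
        φ (MvPolynomial.aeval (fun i : s => T i) P) := by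
      rw [← AlgHom.comp_apply, MvPolynomial.comp_aeval]
    rw [h8]
    have h9 : MvPolynomial.aeval (fun i : s => T i) P = ((q.coeff 0 : adjoin k (T '' s)) : R) := hP
    rw [h9, h1, map_neg, map_mul, h0, zero_mul, neg_zero]
  have h10 : P = 0 := by
    have h11 : AlgebraicIndependent k (fun i : s => φ (T i)) := hind
    exact h11 (by rw [h7, map_zero])
  rw [h10] at hP
  apply hq0
  have h12 : ((q.coeff 0 : adjoin k (T '' s)) : R) = 0 := by
    rw [← hP]; exact map_zero _
  exact Subtype.ext h12

end Pool.Agent.Helper5.D4
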