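import Pool.Agent.Helper5.Gen

/-!
The generator does not kill polynomials of small degree.
-/

namespace Pool.Agent.Helper5.D4

open Pool.Agent.Helper5

variable {n : ℕ}

theorem eval_aeval_genPoly (B : ℕ) (f : MvPolynomial (Fin n) ℚ) (s : Fin B ⊕ Fin B → ℚ) :
    MvPolynomial.eval s (MvPolynomial.aeval (genPoly n B) f) =
      MvPolynomial.eval (gen n B s) f := by
  rw [MvPolynomial.aeval_def, ← MvPolynomial.coe_eval₂Hom, ← RingHom.comp_apply]
  congr 1
  apply MvPolynomial.ringHom_ext
  · intro r; simp
  · intro i; simp [eval_genPoly]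

/-- a nonzero polynomial of degree at most `B` is nonzero at a point with at most `B` nonzero
coordinates -/
theorem exists_sparse_point (B : ℕ) (f : MvPolynomial (Fin n) ℚ) (hf : f ≠ 0)
    (hd : f.totalDegree ≤ B) :
    ∃ (x : Fin n → ℚ) (S : Finset (Fin n)), S.card ≤ B ∧ (∀ i, i ∉ S → x i = 0) ∧
      MvPolynomial.eval x f ≠ 0 := by
  classical
  obtain ⟨m, hm⟩ := MvPolynomial.support_nonempty.mpr hf
  set S := m.support with hS
  have hcard : S.card ≤ B := by
    refine le_trans ?_ ((MvPolynomial.le_totalDegree hm).trans hd)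
    rw [hS, Finsupp.sum]
    calc m.support.card = ∑ i ∈ m.support, 1 := by simp
      _ ≤ ∑ i ∈ m.support, m i := by
        apply Finset.sum_le_sum
        intro i hi
        exact Nat.one_le_iff_ne_zero.mpr (Finsupp.mem_support_iff.mp hi)
  -- restriction of the variables to `S`
  set r : MvPolynomial (Fin n) ℚ →ₐ[ℚ] MvPolynomial (Fin n) ℚ :=
    MvPolynomial.aeval (fun i => if i ∈ S then MvPolynomial.X i else 0) with hr
  have hrf : r f ≠ 0 := by
    intro h0
    have h1 : MvPolynomial.coeff m (r f) = MvPolynomial.coeff m f := by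
      have h2 : ∀ m' : Fin n →₀ ℕ, ∀ c : ℚ, MvPolynomial.coeff m (r (MvPolynomial.monomial m' c)) =
          MvPolynomial.coeff m (MvPolynomial.monomial m' c) := by
        intro m' c
        rw [hr, MvPolynomial.aeval_monomial]
        by_cases hsub : m'.support ⊆ S
        · have h3 : (m'.prod fun i k => (if i ∈ S then MvPolynomial.X i else
              (0 : MvPolynomial (Fin n) ℚ)) ^ k) = m'.prod fun i k => MvPolynomial.X i ^ k := by
            apply Finset.prod_congr rfl
            intro i hi
            simp only [hsub hi, if_true]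
          rw [h3, MvPolynomial.algebraMap_eq, ← MvPolynomial.monomial_eq]
        · rw [Finset.not_subset] at hsub
          obtain ⟨i, hi, hiS⟩ := hsub
          have h3 : (m'.prod fun i k => (if i ∈ S then MvPolynomial.X i else
              (0 : MvPolynomial (Fin n) ℚ)) ^ k) = 0 := by
            apply Finset.prod_eq_zero hi
            simp only [hiS, if_false]
            exact zero_pow (Finsupp.mem_support_iff.mp hi)
          rw [h3, mul_zero, MvPolynomial.coeff_zero, MvPolynomial.coeff_monomial]
          have h4 : m' ≠ m := by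
            rintro rfl
            exact hiS hi
          simp [h4]
      conv_lhs => rw [MvPolynomial.as_sum f, map_sum, MvPolynomial.coeff_sum]
      conv_rhs => rw [MvPolynomial.as_sum f, MvPolynomial.coeff_sum]
      exact Finset.sum_congr rfl fun m' _ => h2 m' _
    rw [h0, MvPolynomial.coeff_zero] at h1
    exact MvPolynomial.mem_support_iff.mp hm h1.symm
  have hex : ∃ x, MvPolynomial.eval x (r f) ≠ 0 := by
    by_contra hcon
    push Not at hcon
    apply hrf
    apply MvPolynomial.funext
    intro x
    rw [hcon x, map_zero]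
  obtain ⟨x, hx⟩ := hex
  refine ⟨fun i => if i ∈ S then x i else 0, S, hcard, fun i hi => by simp [hi], ?_⟩
  intro h0
  apply hx
  rw [← h0, hr, MvPolynomial.aeval_def, ← MvPolynomial.coe_eval₂Hom, ← RingHom.comp_apply]
  congr 1
  apply MvPolynomial.ringHom_ext
  · intro c; simp
  · intro i
    by_cases hi : i ∈ S <;> simp [hi]

/-- the generator with `B` seeds is injective on polynomials of degree at most `B` -/
theorem aeval_genPoly_ne_zero (B : ℕ) (f : MvPolynomial (Fin n) ℚ) (hf : f ≠ 0)
    (hd : f.totalDegree ≤ B) : MvPolynomial.aeval (genPoly n B) f ≠ 0 := by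
  obtain ⟨x, S, hS, hx, hne⟩ := exists_sparse_point B f hf hd
  have h0 : (fun _ => 0 : Fin n → ℚ) ∈ G n 0 := ⟨fun _ => 0, by funext i; simp [gen]⟩
  have h1 := G_step (κ := B) h0 x S hS (fun i hi => hx i hi)
  rw [Nat.zero_add] at h1
  obtain ⟨s, hs⟩ := h1
  intro hcon
  apply hne
  rw [← hs, ← eval_aeval_genPoly, hcon, map_zero]

end Pool.Agent.Helper5.D4
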