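import Pool.Agent.Helper5.D4.Jac

/-!
Algebraically independent polynomials have a nonzero Jacobian minor (characteristic zero).
-/

namespace Pool.Agent.Helper5.D4

open MvPolynomial Module

/-- linearly independent rows give a nonzero maximal minor -/
theorem exists_minor_of_rows {K : Type*} [Field K] {r n : ℕ} (A : Matrix (Fin r) (Fin n) K)
    (h : LinearIndependent K A.row) : ∃ J : Fin r → Fin n, (A.submatrix id J).det ≠ 0 := by
  classical
  have hspan : Submodule.span K (Set.range A.col) = ⊤ := by
    apply Submodule.eq_top_of_finrank_eq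
    have h1 : A.rank = r := by
      have := LinearIndependent.rank_matrix h
      simpa using this
    rw [← Matrix.rank_eq_finrank_span_cols, h1]
    simp
  obtain ⟨κ, a, ha, hs, hi⟩ := exists_linearIndependent' K A.col
  have hfin : Finite κ := Finite.of_injective a ha
  have := Fintype.ofFinite κ
  have hcard : Fintype.card κ = r := by
    have h1 := finrank_span_eq_card hi
    rw [hs, hspan, finrank_top] at h1
    simpa using h1.symm
  set e : Fin r ≃ κ := (Fintype.equivFinOfCardEq hcard).symm with he
  refine ⟨a ∘ e, ?_⟩
  have h2 : LinearIndependent K ((A.submatrix id (a ∘ e)).col) := by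
    have h3 : (A.submatrix id (a ∘ e)).col = (A.col ∘ a) ∘ e := by
      funext j
      rfl
    rw [h3]
    exact hi.comp _ e.injective
  rw [Matrix.linearIndependent_cols_iff_isUnit] at h2
  exact ((Matrix.isUnit_iff_isUnit_det _).mp h2).ne_zero

/-- a relation of minimal degree involving the extra element has nonzero derivative there -/
theorem exists_relation {k : Type*} [Field k] [CharZero k] {L ι : Type*} [CommRing L] [IsDomain L]
    [Algebra k L] (x : ι → L) (hx : AlgebraicIndependent k x) (z : L)
    (hdep : ¬ AlgebraicIndependent k (fun o : Option ι => o.elim z x)) :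
    ∃ P : MvPolynomial (Option ι) k, aeval (fun o : Option ι => o.elim z x) P = 0 ∧
      aeval (fun o : Option ι => o.elim z x) (pderiv none P) ≠ 0 := by
  classical
  obtain ⟨P, hP0, hP, hmin⟩ := exists_min_relation _ hdep
  refine ⟨P, hP, fun h0 => ?_⟩
  have h1 : pderiv none P = 0 := by
    by_contra hne
    exact hne (hmin _ h0 (totalDegree_pderiv_lt none P hne))
  -- `P` does not involve the extra variable
  have h2 : (P.vars : Set (Option ι)) ⊆ Set.range (some : ι → Option ι) := by
    intro o ho
    rw [Finset.mem_coe, mem_vars_iff_mem_support] at ho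
    obtain ⟨m, hm, hom⟩ := ho
    cases o with
    | none =>
      rw [Finsupp.mem_support_iff] at hom
      exact absurd (support_zero_of_pderiv none P h1 m hm) hom
    | some i => exact ⟨i, rfl⟩
  obtain ⟨Q, hQ⟩ := exists_rename_eq_of_vars_subset_range P some (Option.some_injective ι) h2
  have h3 : aeval x Q = 0 := by
    have h4 : aeval (fun o : Option ι => o.elim z x) (rename some Q) = aeval x Q := by
      rw [aeval_rename]
      rfl
    rw [← h4, hQ, hP]
  have h6 : Q = 0 := hx (by rw [h3, map_zero])
  apply hP0
  rw [← hQ, h6, map_zero]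

theorem exists_jacobian_minor {k : Type*} [Field k] [CharZero k] {r n : ℕ}
    (T : Fin r → MvPolynomial (Fin n) k) (hT : AlgebraicIndependent k T) :
    ∃ J : Fin r → Fin n, (Matrix.of fun i j => pderiv (J j) (T i)).det ≠ 0 := by
  classical
  have hspan : Algebra.adjoin k (Set.range T ∪ Set.range (X : Fin n → MvPolynomial (Fin n) k)) = ⊤ := by
    rw [eq_top_iff, ← MvPolynomial.adjoin_range_X]
    exact Algebra.adjoin_mono Set.subset_union_right
  have halg : Algebra.IsAlgebraic (Algebra.adjoin k (Set.range T ∪ Set.range (X : Fin n → MvPolynomial (Fin n) k)))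
      (MvPolynomial (Fin n) k) := by
    rw [hspan]
    refine ⟨fun a => ?_⟩
    exact isAlgebraic_algebraMap (⟨a, Algebra.mem_top⟩ : (⊤ : Subalgebra k (MvPolynomial (Fin n) k)))
  have hT' : AlgebraicIndepOn k id (Set.range T) := by
    have h1 := hT.to_subtype_range
    exact h1
  obtain ⟨u, hsu, hut, hu⟩ := exists_isTranscendenceBasis_between (R := k) (Set.range T)
    (Set.range T ∪ Set.range (X : Fin n → MvPolynomial (Fin n) k)) Set.subset_union_left hT'
  -- cardinality
  have hcard : Cardinal.mk u = n := by
    rw [hu.cardinalMk_eq_trdeg, MvPolynomial.trdeg_of_isDomain]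
    simp
  have hufin : Finite u := by
    rw [← Cardinal.lt_aleph0_iff_finite, hcard]
    exact Cardinal.natCast_lt_aleph0
  have := Fintype.ofFinite u
  have hcard' : Fintype.card u = n := by
    rw [Cardinal.mk_fintype] at hcard
    exact_mod_cast hcard
  set K := FractionRing (MvPolynomial (Fin n) k) with hK
  set v : u → (Fin n → K) := fun y l => algebraMap (MvPolynomial (Fin n) k) K (pderiv l (y : MvPolynomial (Fin n) k)) with hv
  have hmem : ∀ j : Fin n, (Pi.single j 1 : Fin n → K) ∈ Submodule.span K (Set.range v) := by
    intro j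
    have hdep : ¬ AlgebraicIndependent k (fun o : Option u => o.elim (X j : MvPolynomial (Fin n) k) (fun y => (y : MvPolynomial (Fin n) k))) := by
      intro hcon
      have h1 := hcon.lift_cardinalMk_le_trdeg
      rw [MvPolynomial.trdeg_of_isDomain] at h1
      simp [hcard'] at h1
    obtain ⟨P, hP, hd⟩ := exists_relation (k := k) (fun y : u => (y : MvPolynomial (Fin n) k)) hu.1 (X j) hdep
    set d := aeval (fun o : Option u => o.elim (X j : MvPolynomial (Fin n) k) (fun y => (y : MvPolynomial (Fin n) k))) (pderiv none P) with hd'
    have h1 : ∀ l, d * pderiv l (X j : MvPolynomial (Fin n) k) + ∑ y : u,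
        aeval (fun o : Option u => o.elim (X j : MvPolynomial (Fin n) k) (fun y => (y : MvPolynomial (Fin n) k))) (pderiv (some y) P) *
          pderiv l (y : MvPolynomial (Fin n) k) = 0 := by
      intro l
      have h2 := chain_rule (pderiv l) (fun o : Option u => o.elim (X j : MvPolynomial (Fin n) k) (fun y => (y : MvPolynomial (Fin n) k))) P
      rw [hP, map_zero, Fintype.sum_option] at h2
      exact h2.symm
    have h3 : (Pi.single j 1 : Fin n → K) = ∑ y : u, (-(algebraMap (MvPolynomial (Fin n) k) K d)⁻¹ *
        algebraMap (MvPolynomial (Fin n) k) K (aeval (fun o : Option u => o.elim (X j : MvPolynomial (Fin n) k) (fun y => (y : MvPolynomial (Fin n) k)))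
          (pderiv (some y) P))) • v y := by
      have hd0 : algebraMap (MvPolynomial (Fin n) k) K d ≠ 0 := by
        rw [Ne, FaithfulSMul.algebraMap_eq_zero_iff]
        exact hd
      funext l
      have h4 := congrArg (algebraMap (MvPolynomial (Fin n) k) K) (h1 l)
      rw [map_add, map_mul, map_sum, map_zero] at h4
      simp only [map_mul] at h4
      rw [Finset.sum_apply]
      simp only [Pi.smul_apply, smul_eq_mul, hv]
      have h5 : ∑ y : u, -(algebraMap (MvPolynomial (Fin n) k) K d)⁻¹ *
          algebraMap (MvPolynomial (Fin n) k) K (aeval (fun o : Option u => o.elim (X j : MvPolynomial (Fin n) k) (fun y => (y : MvPolynomial (Fin n) k)))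
            (pderiv (some y) P)) * algebraMap (MvPolynomial (Fin n) k) K (pderiv l (y : MvPolynomial (Fin n) k)) =
          -(algebraMap (MvPolynomial (Fin n) k) K d)⁻¹ * ∑ y : u,
          algebraMap (MvPolynomial (Fin n) k) K (aeval (fun o : Option u => o.elim (X j : MvPolynomial (Fin n) k) (fun y => (y : MvPolynomial (Fin n) k)))
            (pderiv (some y) P)) * algebraMap (MvPolynomial (Fin n) k) K (pderiv l (y : MvPolynomial (Fin n) k)) := by
        rw [Finset.mul_sum]
        exact Finset.sum_congr rfl fun y _ => by ring
      rw [h5, eq_neg_of_add_eq_zero_right h4]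
      have h6 : algebraMap (MvPolynomial (Fin n) k) K (pderiv l (X j : MvPolynomial (Fin n) k)) = (Pi.single j 1 : Fin n → K) l := by
        rw [pderiv_X]
        by_cases h : j = l
        · subst h; simp
        · simp [h, Ne.symm h]
      rw [h6]
      rw [mul_neg, neg_mul, neg_neg, ← mul_assoc, inv_mul_cancel₀ hd0, one_mul]
    rw [h3]
    exact Submodule.sum_mem _ fun y _ => Submodule.smul_mem _ _ (Submodule.subset_span ⟨y, rfl⟩)
  have htop : ⊤ ≤ Submodule.span K (Set.range v) := by
    intro x _
    have : x = ∑ j, x j • (Pi.single j 1 : Fin n → K) := by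
      funext l
      simp [Finset.sum_apply, Pi.single_apply]
    rw [this]
    exact Submodule.sum_mem _ fun j _ => Submodule.smul_mem _ _ (hmem j)
  have hli : LinearIndependent K v :=
    linearIndependent_of_top_le_span_of_card_eq_finrank htop (by simp [hcard'])
  set M : Matrix (Fin r) (Fin n) K := Matrix.of fun i l => algebraMap (MvPolynomial (Fin n) k) K (pderiv l (T i)) with hM
  have hrows : LinearIndependent K M.row := by
    have h1 : M.row = v ∘ (fun i => (⟨T i, hsu ⟨i, rfl⟩⟩ : u)) := by
      funext i l
      rfl
    rw [h1]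
    apply hli.comp
    intro i j hij
    exact hT.injective (congrArg Subtype.val hij)
  obtain ⟨J, hJ⟩ := exists_minor_of_rows M hrows
  refine ⟨J, fun h0 => hJ ?_⟩
  have h1 : M.submatrix id J = (Matrix.of fun i j => pderiv (J j) (T i)).map (algebraMap (MvPolynomial (Fin n) k) K) := by
    ext i j
    rfl
  rw [h1, ← RingHom.mapMatrix_apply, ← RingHom.map_det, h0, map_zero]

end Pool.Agent.Helper5.D4
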