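import Pool.Agent.Helper5.D4.Faithful
import Pool.Agent.Helper5.D4.GenInj
import Pool.Agent.Helper5.D4.Jac2

/-!
From nonvanishing of shifted Jacobians to the hitting set.
-/

namespace Pool.Agent.Helper5.D4

open Pool.Agent.Helper5 MvPolynomial

/-- products of polynomials of degree at most `δ` -/
noncomputable def Prods (n δ : ℕ) : Submonoid (MvPolynomial (Fin n) ℚ) :=
  Submonoid.closure {g | g.totalDegree ≤ δ}

/-- `x_v ↦ (generator)_v + ∑_{J j = v} u_j` -/
noncomputable def shiftGen (n B : ℕ) {r : ℕ} (J : Fin r → Fin n) :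
    MvPolynomial (Fin n) ℚ →ₐ[ℚ] MvPolynomial (Fin r) (MvPolynomial (Fin B ⊕ Fin B) ℚ) :=
  aeval (fun v => C (genPoly n B v) + ∑ j, if J j = v then X j else 0)

theorem eval_shiftGen (n B : ℕ) {r : ℕ} (J : Fin r → Fin n) (f : MvPolynomial (Fin n) ℚ)
    (s : Fin B ⊕ Fin B → ℚ) (u : Fin r → ℚ) :
    eval u (map (eval s) (shiftGen n B J f)) =
      eval (fun v => gen n B s v + ∑ j, if J j = v then u j else 0) f := by
  have h : ((eval u).comp ((map (eval s)).comp (shiftGen n B J : MvPolynomial (Fin n) ℚ →+*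
      MvPolynomial (Fin r) (MvPolynomial (Fin B ⊕ Fin B) ℚ)))) =
      eval (fun v => gen n B s v + ∑ j, if J j = v then u j else 0) := by
    apply MvPolynomial.ringHom_ext
    · intro c
      simp [shiftGen, MvPolynomial.algebraMap_eq, MvPolynomial.algebraMap_apply]
    · intro v
      simp only [shiftGen, RingHom.comp_apply, RingHom.coe_coe, aeval_X, map_add, map_C, map_sum,
        eval_C, eval_X, eval_genPoly]
      congr 1
      refine Finset.sum_congr rfl fun j _ => ?_
      by_cases h : J j = v <;> simp [h]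
  exact congrArg (fun φ => φ f) h

theorem hit_of_shifted (k δ B : ℕ)
    (H : ∀ r ≤ k, ∀ (n : ℕ) (T : Fin r → MvPolynomial (Fin n) ℚ), (∀ i, T i ∈ Prods n δ) →
      ∀ J : Fin r → Fin n, (Matrix.of fun i j => pderiv (J j) (T i)).det ≠ 0 →
        (Matrix.of fun i j => pderiv j (shiftGen n B J (T i))).det ≠ 0)
    (n m : ℕ) (T : Fin m → MvPolynomial (Fin n) ℚ) (hT : ∀ i, T i ∈ Prods n δ)
    (htr : ∀ b : Finset (Fin m), AlgebraicIndepOn ℚ T (b : Set (Fin m)) → b.card ≤ k)
    (f : MvPolynomial (Fin n) ℚ) (hf : f ∈ Algebra.adjoin ℚ (Set.range T)) (hf0 : f ≠ 0) :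
    ∃ s, eval (gen n (B + k) s) f ≠ 0 := by
  classical
  obtain ⟨b, hb, halg⟩ := exists_basis (k := ℚ) T
  set r := b.card with hr
  have hrk : r ≤ k := htr b hb
  set e : Fin r ≃ b := b.equivFin.symm with he
  set T' : Fin r → MvPolynomial (Fin n) ℚ := fun i => T (e i) with hT'
  have hind : AlgebraicIndependent ℚ T' := by
    have h1 : AlgebraicIndependent ℚ (fun i : b => T i) := hb
    exact h1.comp e e.injective
  obtain ⟨J, hJ⟩ := exists_jacobian_minor T' hind
  have hdet := H r hrk n T' (fun i => hT _) J hJ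
  set L := MvPolynomial (Fin r) (MvPolynomial (Fin B ⊕ Fin B) ℚ) with hL
  have hind2 : AlgebraicIndependent ℚ (fun i => shiftGen n B J (T' i)) := by
    apply algebraicIndependent_of_det
      (fun j => (pderiv j : Derivation (MvPolynomial (Fin B ⊕ Fin B) ℚ) L L).restrictScalars ℚ)
    exact hdet
  have hind3 : AlgebraicIndepOn ℚ (fun i => shiftGen n B J (T i)) (b : Set (Fin m)) := by
    show AlgebraicIndependent ℚ (fun i : b => shiftGen n B J (T i))
    have h1 : (fun i : b => shiftGen n B J (T i)) =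
        (fun i => shiftGen n B J (T' i)) ∘ e.symm := by
      funext i
      simp [hT']
    rw [h1]
    exact hind2.comp _ e.symm.injective
  have hne := faithful (shiftGen n B J) T (b : Set (Fin m)) hind3 halg f hf hf0
  -- a point
  have h1 : ∃ s : Fin B ⊕ Fin B → ℚ, map (eval s) (shiftGen n B J f) ≠ 0 := by
    by_contra hcon
    push Not at hcon
    apply hne
    refine MvPolynomial.ext _ _ fun m => ?_
    rw [coeff_zero]
    apply MvPolynomial.funext
    intro s
    have h2 := congrArg (coeff m) (hcon s)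
    rw [coeff_map, coeff_zero] at h2
    rw [h2, map_zero]
  obtain ⟨s, hs⟩ := h1
  have h2 : ∃ u : Fin r → ℚ, eval u (map (eval s) (shiftGen n B J f)) ≠ 0 := by
    by_contra hcon
    push Not at hcon
    apply hs
    apply MvPolynomial.funext
    intro u
    rw [hcon u, map_zero]
  obtain ⟨u, hu⟩ := h2
  rw [eval_shiftGen] at hu
  have h3 := G_step (κ := k) (⟨s, rfl⟩ : gen n B s ∈ G n B)
    (fun v => gen n B s v + ∑ j, if J j = v then u j else 0) (Finset.univ.image J)
    ((Finset.card_image_le).trans (by simpa using hrk)) (by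
      intro v hv
      have : ∀ j, ¬ J j = v := by
        intro j hj
        apply hv
        rw [Finset.mem_image]
        exact ⟨j, Finset.mem_univ _, hj⟩
      simp [this])
  obtain ⟨s', hs'⟩ := h3
  exact ⟨s', by rw [hs']; exact hu⟩

end Pool.Agent.Helper5.D4
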