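import Pool.Agent.Helper6.LF.JLem
import Pool.Agent.Helper5.D4.Assemble

/-!
The application of the main theorem on log forms to the generator.
-/

namespace Pool.Agent.Helper5.D4

open Pool.Agent.Helper5 MvPolynomial LF

theorem totalDegree_aeval_le {σ τ R : Type*} [CommSemiring R] (s : σ → MvPolynomial τ R)
    (hs : ∀ v, (s v).totalDegree ≤ 1) (f : MvPolynomial σ R) :
    (aeval s f).totalDegree ≤ f.totalDegree := by
  classical
  conv_lhs => rw [as_sum f, map_sum]
  apply totalDegree_finsetSum_le
  intro m hm
  rw [aeval_monomial, algebraMap_eq]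
  refine (totalDegree_mul _ _).trans ?_
  rw [totalDegree_C, zero_add, Finsupp.prod]
  refine (totalDegree_finsetProd _ _).trans ?_
  refine le_trans ?_ (le_totalDegree hm)
  rw [Finsupp.sum]
  apply Finset.sum_le_sum
  intro i _
  refine (totalDegree_pow _ _).trans ?_
  calc m i * (s i).totalDegree ≤ m i * 1 := Nat.mul_le_mul_left _ (hs i)
    _ = m i := mul_one _

/-- log-Jacobians of products of polynomials of small degree -/
theorem J_mem_of_prods {M r δ : ℕ} (a : Fin r → Fin M) (S : Finset (Fin r)) :
    ∀ f : Fin r → Pol ℚ M, (∀ i, f i ≠ 0) →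
      (∀ i ∈ S, f i ∈ Submonoid.closure {g : Pol ℚ M | g.totalDegree ≤ δ}) →
      (∀ i, i ∉ S → (f i).totalDegree ≤ δ) →
      J (algebraMap (Pol ℚ M) (Fr ℚ M)) a f ∈ PLs ℚ a δ := by
  classical
  induction S using Finset.induction_on with
  | empty =>
    intro f hf _ hd
    exact J_mem_PLs hf (fun i => hd i (Finset.notMem_empty i))
  | insert i₀ S hi₀ ih =>
    intro f hf hS hd
    have key : ∀ g : Pol ℚ M, g ∈ Submonoid.closure {g : Pol ℚ M | g.totalDegree ≤ δ} → g ≠ 0 →
        J (algebraMap (Pol ℚ M) (Fr ℚ M)) a (Function.update f i₀ g) ∈ PLs ℚ a δ := by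
      intro g hg
      induction hg using Submonoid.closure_induction with
      | mem g hg =>
        intro hg0
        apply ih
        · intro i
          by_cases hi : i = i₀
          · subst hi; simpa using hg0
          · simpa [hi] using hf i
        · intro i hi
          have hne : i ≠ i₀ := by rintro rfl; exact hi₀ hi
          rw [Function.update_of_ne hne]
          exact hS i (Finset.mem_insert_of_mem hi)
        · intro i hi
          by_cases hi' : i = i₀
          · subst hi'; simpa using hg
          · rw [Function.update_of_ne hi']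
            exact hd i (by simp [hi', hi])
      | one =>
        intro _
        rw [J_zero_of_unit _ _ _ i₀ (by simp)]
        exact Submodule.zero_mem _
      | mul g h _ _ ihg ihh =>
        intro hgh
        have hg0 : g ≠ 0 := left_ne_zero_of_mul hgh
        have hh0 : h ≠ 0 := right_ne_zero_of_mul hgh
        rw [J_update_mul _ _ _ _ (am_ne hg0) (am_ne hh0)]
        exact Submodule.add_mem _ (ihg hg0) (ihh hh0)
    have := key (f i₀) (hS i₀ (Finset.mem_insert_self _ _)) (hf i₀)
    rwa [Function.update_eq_self] at this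

/-- the substitution `x_v ↦ b_v + ∑_{J j = v} u_j` -/
noncomputable def sh {n r : ℕ} (J : Fin r → Fin n) : MvPolynomial (Fin n) ℚ →ₐ[ℚ] Pol ℚ (n + r) :=
  aeval (fun v => X (Fin.castAdd r v) + ∑ j, if J j = v then X (Fin.natAdd n j) else 0)

theorem sh_injective {n r : ℕ} (J : Fin r → Fin n) : Function.Injective (sh J) := by
  set s : Fin (n + r) → MvPolynomial (Fin n) ℚ := Fin.addCases (fun v => X v) (fun _ => 0) with hs
  have h : (aeval s).comp (sh J) = AlgHom.id ℚ _ := by
    apply MvPolynomial.algHom_ext
    intro v
    simp only [sh, AlgHom.comp_apply, aeval_X, map_add, map_sum, AlgHom.id_apply]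
    have h0 : ∀ j, (aeval s) (if J j = v then X (Fin.natAdd n j) else 0 : Pol ℚ (n + r)) = 0 := by
      intro j
      by_cases h : J j = v
      · rw [if_pos h, aeval_X]
        simp [hs]
      · rw [if_neg h, map_zero]
    rw [Finset.sum_eq_zero (fun j _ => h0 j), add_zero]
    simp [hs]
  exact Function.LeftInverse.injective (g := aeval s) (fun f => congrArg (fun φ => φ f) h)

/-- chain rule for a substitution with constant derivatives -/
theorem chain_const {n : ℕ} {L : Type*} [CommRing L] [Algebra ℚ L] (D : Derivation ℚ L L)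
    (s : Fin n → L) (v : Fin n) (hs : ∀ w, D (s w) = if w = v then 1 else 0)
    (f : MvPolynomial (Fin n) ℚ) :
    D (aeval s f) = aeval s (pderiv v f) := by
  rw [chain_rule]
  simp [hs]

theorem pderiv_sh {n r : ℕ} (J : Fin r → Fin n) (j : Fin r) (f : MvPolynomial (Fin n) ℚ) :
    pderiv (Fin.natAdd n j) (sh J f) = sh J (pderiv (J j) f) := by
  rw [sh]
  apply chain_const
  intro w
  rw [map_add, map_sum, pderiv_X_of_ne, zero_add]
  · have h0 : ∀ i, pderiv (Fin.natAdd n j) (if J i = w then X (Fin.natAdd n i) else 0 :
        Pol ℚ (n + r)) = if i = j then (if J i = w then 1 else 0) else 0 := by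
      intro i
      by_cases h : J i = w
      · rw [if_pos h, if_pos h, pderiv_X]
        by_cases hij : i = j
        · subst hij; simp
        · have : Fin.natAdd n i ≠ Fin.natAdd n j := by
            intro h; exact hij (Fin.natAdd_injective _ _ h)
          simp [hij, this]
      · rw [if_neg h, if_neg h, map_zero, ite_self]
    simp only [h0, Finset.sum_ite_eq', Finset.mem_univ, if_true]
    by_cases h : J j = w
    · simp [h]
    · simp [h, Ne.symm h]
  · intro h
    have := congrArg Fin.val h
    simp at this
    omega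

/-- the place: parameters to the generator, active variables to themselves -/
noncomputable def Th (n B r : ℕ) :
    Pol ℚ (n + r) →ₐ[ℚ] MvPolynomial (Fin r) (MvPolynomial (Fin B ⊕ Fin B) ℚ) :=
  aeval (Fin.addCases (fun v => C (genPoly n B v)) (fun j => X j))

theorem Th_sh {n B r : ℕ} (J : Fin r → Fin n) (f : MvPolynomial (Fin n) ℚ) :
    Th n B r (sh J f) = shiftGen n B J f := by
  have h : (Th n B r).comp (sh J) = shiftGen n B J := by
    apply MvPolynomial.algHom_ext
    intro v
    simp only [Th, sh, shiftGen, AlgHom.comp_apply, aeval_X, map_add, map_sum, Fin.addCases_left]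
    congr 1
    refine Finset.sum_congr rfl fun j _ => ?_
    by_cases h : J j = v
    · rw [if_pos h, if_pos h, aeval_X, Fin.addCases_right]
    · rw [if_neg h, if_neg h, map_zero]
  exact congrArg (fun φ => φ f) h

theorem pderiv_Th {n B r : ℕ} (j : Fin r) (f : Pol ℚ (n + r)) :
    pderiv j (Th n B r f) = Th n B r (pderiv (Fin.natAdd n j) f) := by
  have h := chain_const ((pderiv j : Derivation (MvPolynomial (Fin B ⊕ Fin B) ℚ)
    (MvPolynomial (Fin r) (MvPolynomial (Fin B ⊕ Fin B) ℚ)) _).restrictScalars ℚ)
    (Fin.addCases (fun v => C (genPoly n B v)) (fun j => X j)) (Fin.natAdd n j) (by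
      intro w
      refine Fin.addCases (fun w => ?_) (fun w => ?_) w
      · rw [Fin.addCases_left]
        have h1 : Fin.castAdd r w ≠ Fin.natAdd n j := by
          intro h
          have := congrArg Fin.val h
          simp at this
          omega
        rw [if_neg h1]
        exact pderiv_C
      · rw [Fin.addCases_right]
        by_cases hw : w = j
        · subst hw
          rw [if_pos rfl]
          exact pderiv_X_self w
        · have h1 : Fin.natAdd n w ≠ Fin.natAdd n j := by
            intro h; exact hw (Fin.natAdd_injective _ _ h)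
          rw [if_neg h1]
          exact pderiv_X_of_ne hw) f
  exact h

theorem eval_Th {n B r : ℕ} (f : Pol ℚ (n + r)) (s : Fin B ⊕ Fin B → ℚ) (x : Fin (n + r) → ℚ)
    (hs : ∀ v, gen n B s v = x (Fin.castAdd r v)) :
    eval (fun j => x (Fin.natAdd n j)) (map (eval s) (Th n B r f)) = eval x f := by
  have h : ((eval (fun j => x (Fin.natAdd n j))).comp ((map (eval s)).comp
      (Th n B r : Pol ℚ (n + r) →+* MvPolynomial (Fin r) (MvPolynomial (Fin B ⊕ Fin B) ℚ)))) =
      eval x := by
    apply MvPolynomial.ringHom_ext
    · intro c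
      simp [Th, MvPolynomial.algebraMap_eq, MvPolynomial.algebraMap_apply]
    · intro v
      refine Fin.addCases (fun w => ?_) (fun w => ?_) v
      · simp [Th, eval_genPoly, hs]
      · simp [Th]
  exact congrArg (fun φ => φ f) h

theorem Th_ne_zero {n B r : ℕ} (f : Pol ℚ (n + r)) (hf : f ≠ 0) (hd : f.totalDegree ≤ B) :
    Th n B r f ≠ 0 := by
  classical
  obtain ⟨x, S, hS, hx, hne⟩ := exists_sparse_point B f hf hd
  have h0 : (fun _ => 0 : Fin n → ℚ) ∈ G n 0 := ⟨fun _ => 0, by funext i; simp [gen]⟩
  have h1 := G_step (κ := B) h0 (fun v => x (Fin.castAdd r v))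
    (Finset.univ.filter (fun v => Fin.castAdd r v ∈ S)) (by
      refine le_trans ?_ hS
      apply Finset.card_le_card_of_injOn (fun v => Fin.castAdd r v)
      · intro v hv
        simpa using hv
      · intro v _ w _ h
        exact Fin.castAdd_injective _ _ h) (fun i hi => by
      apply hx
      simpa using hi)
  rw [Nat.zero_add] at h1
  obtain ⟨s, hs⟩ := h1
  intro hcon
  apply hne
  rw [← eval_Th f s x (fun v => congrFun hs v), hcon, map_zero, map_zero]

/-- **from the main theorem on log forms to the shifted Jacobians** -/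
theorem shifted_of_mainI (k δ B : ℕ) (hδ : δ ≤ B) (hI : ∀ r ≤ k, MainI ℚ r δ B) :
    ∀ r ≤ k, ∀ (n : ℕ) (T : Fin r → MvPolynomial (Fin n) ℚ), (∀ i, T i ∈ Prods n δ) →
      ∀ J : Fin r → Fin n, (Matrix.of fun i j => pderiv (J j) (T i)).det ≠ 0 →
        (Matrix.of fun i j => pderiv j (shiftGen n B J (T i))).det ≠ 0 := by
  classical
  intro r hr n T hT Jf hJ hcon
  set A := MvPolynomial (Fin r) (MvPolynomial (Fin B ⊕ Fin B) ℚ) with hA
  set θ : Pol ℚ (n + r) →+* FractionRing A := (algebraMap A (FractionRing A)).comp
    (Th n B r : Pol ℚ (n + r) →+* A) with hθ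
  have hθ0 : ∀ f, θ f = 0 ↔ Th n B r f = 0 := by
    intro f
    rw [hθ, RingHom.comp_apply]
    constructor
    · intro h
      exact IsFractionRing.injective A (FractionRing A) (by rw [map_zero]; exact h)
    · intro h
      have h' : (Th n B r : Pol ℚ (n + r) →+* A) f = 0 := h
      rw [h', map_zero]
  set a : Fin r → Fin (n + r) := Fin.natAdd n with ha
  have hThick : Thick θ B := by
    intro f hf hd h0
    exact Th_ne_zero f hf hd ((hθ0 f).mp h0)
  have hStable : Stable θ a := by
    intro f hf j
    rw [hθ0] at hf ⊢
    rw [ha, ← pderiv_Th, hf, map_zero]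
  have hT0 : ∀ i, T i ≠ 0 := by
    intro i h0
    apply hJ
    apply Matrix.det_eq_zero_of_row_eq_zero i
    intro j
    simp [h0]
  have hs0 : ∀ i, sh Jf (T i) ≠ 0 := by
    intro i h
    exact hT0 i (sh_injective Jf (by rw [h, map_zero]))
  have hprods : ∀ f ∈ Prods n δ, sh Jf f ∈ Submonoid.closure {g : Pol ℚ (n + r) |
      g.totalDegree ≤ δ} := by
    intro f hf
    induction hf using Submonoid.closure_induction with
    | mem g hg =>
      apply Submonoid.subset_closure
      refine (totalDegree_aeval_le _ ?_ g).trans hg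
      intro v
      refine (totalDegree_add _ _).trans (max_le (totalDegree_X _).le ?_)
      apply totalDegree_finsetSum_le
      intro j _
      by_cases h : Jf j = v
      · rw [if_pos h, totalDegree_X]
      · rw [if_neg h, totalDegree_zero]; exact Nat.zero_le _
    | one => rw [map_one]; exact Submonoid.one_mem _
    | mul g h _ _ ihg ihh => rw [map_mul]; exact Submonoid.mul_mem _ ihg ihh
  have hV := J_mem_of_prods a Finset.univ (fun i => sh Jf (T i)) hs0
    (fun i _ => hprods _ (hT i)) (fun i hi => absurd (Finset.mem_univ i) hi)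
  have hU := J_mul_prod a (fun i => sh Jf (T i)) hs0
  set V := J (algebraMap (Pol ℚ (n + r)) (Fr ℚ (n + r))) a (fun i => sh Jf (T i)) with hVdef
  have hθnz : ∀ f ∈ Prods n δ, f ≠ 0 → θ (sh Jf f) ≠ 0 := by
    intro f hf
    induction hf using Submonoid.closure_induction with
    | mem g hg =>
      intro hg0
      apply hThick
      · intro h
        exact hg0 (sh_injective Jf (by rw [h, map_zero]))
      · refine (totalDegree_aeval_le _ ?_ g).trans (le_trans hg hδ)
        intro v
        refine (totalDegree_add _ _).trans (max_le (totalDegree_X _).le ?_)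
        apply totalDegree_finsetSum_le
        intro j _
        by_cases h : Jf j = v
        · rw [if_pos h, totalDegree_X]
        · rw [if_neg h, totalDegree_zero]; exact Nat.zero_le _
    | one => intro _; rw [map_one, map_one]; exact one_ne_zero
    | mul g h _ _ ihg ihh =>
      intro hgh
      rw [map_mul, map_mul]
      exact mul_ne_zero (ihg (left_ne_zero_of_mul hgh)) (ihh (right_ne_zero_of_mul hgh))
  have hval : HasVal θ V 0 := by
    refine ⟨_, _, ?_, hU, ?_⟩
    · rw [map_prod]
      exact Finset.prod_ne_zero_iff.mpr fun i _ => hθnz _ (hT i) (hT0 i)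
    · rw [zero_mul]
      symm
      rw [hθ0, AlgHom.map_det]
      rw [← hcon]
      congr 1
      ext i j : 1
      simp only [AlgHom.mapMatrix_apply, Matrix.map_apply, Matrix.of_apply, ha]
      rw [← pderiv_Th, Th_sh]
  have hV0 := hI r hr (n + r) a (Fin.natAdd_injective _ _) _ θ hStable hThick V hV hval
  rw [hV0, zero_mul] at hU
  apply hJ
  apply sh_injective Jf
  rw [map_zero, AlgHom.map_det]
  have h1 := (am_eq_zero.mp hU.symm)
  rw [← h1]
  congr 1
  ext i j : 1
  simp only [AlgHom.mapMatrix_apply, Matrix.map_apply, Matrix.of_apply, ha]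
  rw [pderiv_sh]

end Pool.Agent.Helper5.D4
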