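import Pool.Agent.Helper5.D4.App

/-!
The hitting-set theorem from the main theorem on log forms.
-/

namespace Pool.Agent.Helper5.D4

open Pool.Agent.Helper5 MvPolynomial LF

theorem Thick_mono {M : ℕ} {k L : Type} [Field k] [Field L] {θ : Pol k M →+* L} {B B' : ℕ}
    (h : B ≤ B') (hθ : Thick θ B') : Thick θ B :=
  fun f hf hd => hθ f hf (hd.trans h)

theorem MainI_mono {k : Type} [Field k] {r δ B B' : ℕ} (h : B ≤ B') (hI : MainI k r δ B) :
    MainI k r δ B' :=
  fun M a ha L _ θ hs ht V hV hval => hI M a ha L θ hs (Thick_mono h ht) V hV hval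

theorem final_of_mainI (hI : ∀ r δ : ℕ, ∃ B, MainI ℚ r δ B) (k δ : ℕ) :
    ∃ c : ℕ, ∀ (n D m : ℕ) (T : Fin m → MvPolynomial (Fin n) ℚ), (∀ i, T i ∈ Prods n δ) →
      (∀ b : Finset (Fin m), AlgebraicIndepOn ℚ T (b : Set (Fin m)) → b.card ≤ k) →
      ∀ f ∈ Algebra.adjoin ℚ (Set.range T), f ≠ 0 → f.totalDegree ≤ D →
        ∃ x ∈ hittingSet n c D, eval x f ≠ 0 := by
  classical
  choose B hB using fun r => hI r δ
  set B' := δ + ∑ r ∈ Finset.range (k + 1), B r with hB'
  have hI' : ∀ r ≤ k, MainI ℚ r δ B' := by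
    intro r hr
    refine MainI_mono ?_ (hB r)
    have : B r ≤ ∑ r ∈ Finset.range (k + 1), B r :=
      Finset.single_le_sum (fun i _ => Nat.zero_le _) (Finset.mem_range.mpr (by omega))
    omega
  refine ⟨B' + k, ?_⟩
  intro n D m T hT htr f hf hf0 hD
  apply hit_grid f D hD
  exact hit_of_shifted k δ B' (shifted_of_mainI k δ B' (by omega) hI') n m T hT htr f hf hf0

end Pool.Agent.Helper5.D4
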