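import Mathlib

/-!
The Jacobian criterion for algebraic independence in characteristic zero.
-/

namespace Pool.Agent.Helper5.D4

open MvPolynomial

section Basic

variable {k ι : Type*} [Field k]

/-- chain rule -/
theorem chain_rule {L : Type*} [CommRing L] [Algebra k L] [Fintype ι] (D : Derivation k L L)
    (T : ι → L) (P : MvPolynomial ι k) :
    D (aeval T P) = ∑ i, aeval T (pderiv i P) * D (T i) := by
  classical
  induction P using MvPolynomial.induction_on with
  | C a => simp
  | add p q hp hq => simp [hp, hq, add_mul, Finset.sum_add_distrib]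
  | mul_X p j hp =>
    rw [map_mul, aeval_X, Derivation.leibniz, hp]
    have h1 : ∀ i, aeval T (pderiv i (p * X j)) * D (T i) =
        T j * (aeval T (pderiv i p) * D (T i)) + (if i = j then aeval T p * D (T j) else 0) := by
      intro i
      rw [pderiv_mul, pderiv_X, map_add, map_mul, map_mul, aeval_X]
      by_cases h : i = j
      · subst h
        simp
        ring
      · have h' : j ≠ i := fun h' => h h'.symm
        simp [h, h']
        ring
    rw [Finset.sum_congr rfl fun i _ => h1 i, Finset.sum_add_distrib, ← Finset.mul_sum]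
    simp [smul_eq_mul]
    ring

theorem totalDegree_pderiv_lt (i : ι) (P : MvPolynomial ι k) (h : pderiv i P ≠ 0) :
    (pderiv i P).totalDegree < P.totalDegree := by
  classical
  rw [MvPolynomial.totalDegree]
  rw [Finset.sup_lt_iff]
  · intro m hm
    rw [mem_support_iff, coeff_pderiv] at hm
    have h1 : coeff (m + Finsupp.single i 1) P ≠ 0 := left_ne_zero_of_mul hm
    have h2 := le_totalDegree (mem_support_iff.mpr h1)
    rw [Finsupp.sum_add_index' (fun _ => rfl) (fun _ _ _ => rfl), Finsupp.sum_single_index rfl]
      at h2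
    omega
  · by_contra h0
    simp only [Nat.bot_eq_zero, not_lt, Nat.le_zero] at h0
    apply h
    rw [totalDegree_eq_zero_iff_eq_C] at h0
    rw [h0, pderiv_C]

theorem support_zero_of_pderiv [CharZero k] (i : ι) (P : MvPolynomial ι k)
    (h : pderiv i P = 0) (m : ι →₀ ℕ) (hm : m ∈ P.support) : m i = 0 := by
  classical
  by_contra hne
  have h1 : coeff (m - Finsupp.single i 1) (pderiv i P) = 0 := by rw [h]; simp
  have h3 : m - Finsupp.single i 1 + Finsupp.single i 1 = m := by
    apply tsub_add_cancel_of_le
    rw [Finsupp.single_le_iff]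
    omega
  rw [coeff_pderiv, h3] at h1
  rcases mul_eq_zero.mp h1 with h2 | h2
  · exact (mem_support_iff.mp hm) h2
  · have : ((((m - Finsupp.single i 1 : ι →₀ ℕ) i + 1 : ℕ)) : k) = 0 := by
      push_cast
      exact h2
    rw [Nat.cast_eq_zero] at this
    omega

/-- a polynomial all of whose derivatives vanish is constant -/
theorem eq_C_of_pderiv [CharZero k] (P : MvPolynomial ι k) (h : ∀ i, pderiv i P = 0) :
    ∃ c, P = C c := by
  classical
  refine ⟨coeff 0 P, ?_⟩
  ext m
  rw [coeff_C]
  by_cases hm : m ∈ P.support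
  · have : m = 0 := by
      ext i
      exact support_zero_of_pderiv i P (h i) m hm
    simp [this]
  · have h1 : coeff m P = 0 := by simpa using hm
    by_cases h0 : 0 = m
    · subst h0; simp
    · simp [h0, h1]

/-- a relation of minimal degree -/
theorem exists_min_relation {L : Type*} [CommRing L] [Algebra k L] (T : ι → L)
    (h : ¬ AlgebraicIndependent k T) :
    ∃ P : MvPolynomial ι k, P ≠ 0 ∧ aeval T P = 0 ∧
      ∀ Q : MvPolynomial ι k, aeval T Q = 0 → Q.totalDegree < P.totalDegree → Q = 0 := by
  classical
  have hex : ∃ d, ∃ P : MvPolynomial ι k, P ≠ 0 ∧ aeval T P = 0 ∧ P.totalDegree = d := by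
    rw [algebraicIndependent_iff] at h
    push Not at h
    obtain ⟨P, h1, h2⟩ := h
    exact ⟨_, P, h2, h1, rfl⟩
  obtain ⟨P, h1, h2, h3⟩ := Nat.find_spec hex
  refine ⟨P, h1, h2, fun Q hQ hlt => ?_⟩
  by_contra hne
  rw [h3] at hlt
  exact Nat.find_min hex hlt ⟨Q, hne, hQ, rfl⟩

/-- Easy direction: derivations with nonzero determinant give algebraic independence. -/
theorem algebraicIndependent_of_det [CharZero k] {L : Type*} [CommRing L] [IsDomain L]
    [Algebra k L] [Fintype ι] [DecidableEq ι] (D : ι → Derivation k L L) (T : ι → L)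
    (h : (Matrix.of fun i j => D j (T i)).det ≠ 0) : AlgebraicIndependent k T := by
  by_contra hdep
  obtain ⟨P, hP0, hP, hmin⟩ := exists_min_relation T hdep
  have h1 : ∀ i, aeval T (pderiv i P) = 0 := by
    have h2 : Matrix.vecMul (fun i => aeval T (pderiv i P)) (Matrix.of fun i j => D j (T i)) = 0 := by
      funext j
      have h3 := chain_rule (D j) T P
      rw [hP, map_zero] at h3
      rw [Matrix.vecMul, dotProduct]
      simpa using h3.symm
    have h4 := Matrix.eq_zero_of_vecMul_eq_zero h h2
    exact fun i => congrFun h4 i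
  have h2 : ∀ i, pderiv i P = 0 := by
    intro i
    by_contra hne
    exact hne (hmin _ (h1 i) (totalDegree_pderiv_lt i P hne))
  obtain ⟨c, hc⟩ := eq_C_of_pderiv P h2
  apply hP0
  rw [hc] at hP ⊢
  rw [aeval_C] at hP
  have := FaithfulSMul.algebraMap_injective k L (hP.trans (map_zero _).symm)
  rw [this, C_0]

end Basic

end Pool.Agent.Helper5.D4
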